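import Pool.Agent.Helper40.C3.En
import Pool.Agent.Helper61.RC.QSt

/-!
# Project RC, SHARP, zone I, (C3): the rows of the harmonics `± 2` of `β` as mean values of lists
-/

set_option autoImplicit false

open MeasureTheory Set Filter Metric

namespace Pool.Agent.Helper40.C3

open Helper49.LT hiding sg s3
open Helper49.RC (om)
open Helper44.GQ
open Helper49.Sharp hiding mean
open Helper56.RC (fc)
open Pool.Agent.Helper35.RC
open Pool.Agent.Helper35.Cas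
open Pool.Agent.Helper20.RC (wR eM eD lk)
open Pool.Agent.Helper43.SH hiding conj_ee
open Pool.Agent.Helper61.RC.QC (h2F)
open Pool.Agent.Helper33.SH (PI ZC z0I b0I ζ1 ζ2 om_val om_conj om_mul om_norm om_sq om_cube e1_eq e2_eq Z1_eq
  Z2_eq Z1 Z2 ee_arg norm_ζ1 norm_ζ2 norm_z0I)

/-! ### the lists -/

/-- constant item -/
def ki (c : Co) (D : ℕ) (n : ℤ) (K : ℕ) (G : ℚ) : It := ⟨[((0, 0, 0, 0), c)], D, n, -n, K, K, G⟩

/-- coefficient of `β₂`, families 1 and 2 -/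
def FA1 (l : ℤ) (K : ℕ) (g h : ℚ) : List It :=
  [ki (mulC (1 + l, 0) (om2 (l - 2))) 4 (l - 1) K g, ki (mulC (1 - l, 0) (om2 (l + 2))) 4 (l + 1) K h]
def FA2 (l : ℤ) (K : ℕ) (g h : ℚ) : List It :=
  [ki (mulC (1 + l, 0) (om2 (2 * l - 4))) 4 (l - 1) K g, ki (mulC (1 - l, 0) (om2 (2 * l + 4))) 4 (l + 1) K h]
/-- `-i` times the coefficient of `β₃`, families 1 and 2 -/
def FB1 (l : ℤ) (K : ℕ) (g h : ℚ) : List It :=
  [ki (mulC (mulC (1 + l, 0) (1, -4)) (om2 (l - 1))) 16 (l - 1) K g,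
   ki (mulC (mulC (l - 1, 0) (1, 4)) (om2 (l + 1))) 16 (l + 1) K h]
def FB2 (l : ℤ) (K : ℕ) (g h : ℚ) : List It :=
  [ki (mulC (mulC (-(1 + l), 0) (1, 4)) (om2 (2 * l - 2))) 16 (l - 1) K g,
   ki (mulC (mulC (1 - l, 0) (1, -4)) (om2 (2 * l + 2))) 16 (l + 1) K h]

/-! ### the harmonics `± 2` -/

theorem conj_ee2 (t : ℝ) : (starRingEnd ℂ) (ee (2 * t)) = ee (-2 * t) := by
  rw [conj_ee]; congr 1; ring

theorem h2_re (β : ℝ → ℂ) (t : ℝ) : (((h2F β t).re : ℝ) : ℂ) =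
    fc (fun x => ((β x).re : ℂ)) 2 * ee (2 * t) + (starRingEnd ℂ) (fc (fun x => ((β x).re : ℂ)) 2) * ee (-2 * t) := by
  have e : (h2F β t).re = 2 * (fc (fun x => ((β x).re : ℂ)) 2 * ee (2 * t)).re := by
    unfold h2F
    simp
  rw [e, Pool.Agent.Helper35.Cas.two_re, map_mul, conj_ee2]

theorem h2_im (β : ℝ → ℂ) (t : ℝ) : (((h2F β t).im : ℝ) : ℂ) =
    fc (fun x => ((β x).im : ℂ)) 2 * ee (2 * t) + (starRingEnd ℂ) (fc (fun x => ((β x).im : ℂ)) 2) * ee (-2 * t) := by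
  have e : (h2F β t).im = 2 * (fc (fun x => ((β x).im : ℂ)) 2 * ee (2 * t)).re := by
    unfold h2F
    simp
  rw [e, Pool.Agent.Helper35.Cas.two_re, map_mul, conj_ee2]

/-! ### pointwise -/

theorem b_pt (l : ℤ) (o ζ g : ℂ) (ho : ‖o‖ = 1) (hζ : ‖ζ‖ < 1) (t a : ℝ)
    (ha : ee a = o * ((1 + ζ) / (‖1 + ζ‖ : ℂ))) :
    (starRingEnd ℂ) ((((ee t * g) * ee (-(t + a))).re
      - Complex.I * ((l : ℝ) : ℂ) * (((ee t * g) * ee (-(t + a))).im : ℂ)) * ee (-((l : ℝ) * (t + a)))) =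
      ee ((l : ℝ) * t) * ((1 + l) / 2 * g * (o ^ (l - 1) * Ph (((l - 1 : ℤ) : ℝ) / 2) (((-(l - 1) : ℤ) : ℝ) / 2) ζ)
        + (1 - l) / 2 * (starRingEnd ℂ) g *
          (o ^ (l + 1) * Ph (((l + 1 : ℤ) : ℝ) / 2) (((-(l + 1) : ℤ) : ℝ) / 2) ζ)) := by
  have hF := one_add_ne hζ
  have hn : (‖1 + ζ‖ : ℂ) ≠ 0 := by
    have : ‖1 + ζ‖ ≠ 0 := norm_ne_zero_iff.2 hF
    exact_mod_cast this
  set U := (1 + ζ) / (‖1 + ζ‖ : ℂ) with hU
  have hUn : ‖U‖ = 1 := by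
    rw [hU, norm_div, Complex.norm_real, norm_norm, div_self (norm_ne_zero_iff.2 hF)]
  have hU0 : U ≠ 0 := by
    intro h
    rw [h, norm_zero] at hUn
    norm_num at hUn
  have ho0 : o ≠ 0 := by
    intro h
    rw [h, norm_zero] at ho
    norm_num at ho
  have hcU : (starRingEnd ℂ) U * U = 1 := by
    rw [mul_comm, Complex.mul_conj, Complex.normSq_eq_norm_sq, hUn]; norm_num
  have hco : (starRingEnd ℂ) o * o = 1 := by
    rw [mul_comm, Complex.mul_conj, Complex.normSq_eq_norm_sq, ho]; norm_num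
  have het : (starRingEnd ℂ) (ee t) * ee t = 1 := by
    rw [mul_comm, Complex.mul_conj, Complex.normSq_eq_norm_sq, norm_ee]; norm_num
  have e1 : ee (-(t + a)) = (starRingEnd ℂ) (ee t) * ((starRingEnd ℂ) o * (starRingEnd ℂ) U) := by
    rw [← conj_ee, ee_add, map_mul, ha, map_mul]
  set Y : ℂ := g * ((starRingEnd ℂ) o * (starRingEnd ℂ) U) with hY
  have e2 : (ee t * g) * ee (-(t + a)) = Y := by
    rw [e1, hY]
    linear_combination (g * ((starRingEnd ℂ) o * (starRingEnd ℂ) U)) * het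
  rw [e2]
  have hre : (Y.re : ℂ) = (Y + (starRingEnd ℂ) Y) / 2 := by
    rw [Complex.add_conj]; push_cast; ring
  have him : (Y.im : ℂ) = -Complex.I * (Y - (starRingEnd ℂ) Y) / 2 := by
    rw [Complex.sub_conj]; push_cast
    linear_combination ((Y.im : ℂ)) * Complex.I_mul_I
  have hcY : (starRingEnd ℂ) Y = (starRingEnd ℂ) g * (o * U) := by
    rw [hY, map_mul, map_mul, Complex.conj_conj, Complex.conj_conj]
  have e3 : ee (-((l : ℝ) * (t + a))) = (starRingEnd ℂ) (ee ((l : ℝ) * t) * (o ^ l * U ^ l)) := by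
    rw [← conj_ee, mul_add, ee_add, ee_zpow l a, ha, mul_zpow]
  have hl : (starRingEnd ℂ) ((l : ℝ) : ℂ) = ((l : ℝ) : ℂ) := Complex.conj_ofReal _
  have P2 : Ph (((l - 1 : ℤ) : ℝ) / 2) (((-(l - 1) : ℤ) : ℝ) / 2) ζ = (starRingEnd ℂ) U * U ^ l := by
    have h1 := Ph_unit hζ (l - 1)
    have e : (((-(l - 1) : ℤ) : ℝ) / 2) = -((l - 1 : ℤ) : ℝ) / 2 := by push_cast; ring
    rw [e, ← h1, ← hU, zpow_sub_one₀ hU0, mul_comm]
    congr 1
    exact (eq_inv_of_mul_eq_one_left hcU).symm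
  have P3 : Ph (((l + 1 : ℤ) : ℝ) / 2) (((-(l + 1) : ℤ) : ℝ) / 2) ζ = U * U ^ l := by
    have h1 := Ph_unit hζ (l + 1)
    have e : (((-(l + 1) : ℤ) : ℝ) / 2) = -((l + 1 : ℤ) : ℝ) / 2 := by push_cast; ring
    rw [e, ← h1, ← hU, zpow_add_one₀ hU0, mul_comm]
  have o2 : o ^ (l - 1) = (starRingEnd ℂ) o * o ^ l := by
    rw [zpow_sub_one₀ ho0, mul_comm]
    congr 1
    exact (eq_inv_of_mul_eq_one_left hco).symm
  have o3 : o ^ (l + 1) = o * o ^ l := by rw [zpow_add_one₀ ho0, mul_comm]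
  rw [P2, P3, o2, o3, e3, map_mul, Complex.conj_conj, map_sub, map_mul, map_mul, Complex.conj_I, hl,
    Complex.conj_ofReal, Complex.conj_ofReal, hre, him, hcY, hY]
  push_cast
  linear_combination (-(l : ℂ) * (g * ((starRingEnd ℂ) o * (starRingEnd ℂ) U) - (starRingEnd ℂ) g * (o * U)) / 2 *
    (ee ((l : ℝ) * t) * (o ^ l * U ^ l))) * Complex.I_mul_I

variable (A : ℝ) (B : ℂ)

theorem ki_v (Z : Po) (c : Co) (D : ℕ) (n : ℤ) (K : ℕ) (G : ℚ) (t : ℝ) :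
    (ki c D n K G).v A B Z t = evC c / D * Ph ((n : ℝ) / 2) (((-n : ℤ) : ℝ) / 2) (evP (uu A t) (vv B t) Z / 4) := by
  unfold ki It.v
  simp [evP_cons, evM]

theorem om0 : om ≠ 0 := fun h => by have := om_norm; rw [h] at this; simp at this

theorem conj_om : (starRingEnd ℂ) om = om ^ (-1 : ℤ) := by
  rw [zpow_neg_one]
  exact eq_inv_of_mul_eq_one_left (by rw [mul_comm]; exact om_mul)

theorem evC_om2 (k : ℤ) : evC (om2 k) = 2 * om ^ k := by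
  have := om2_eq k
  linear_combination 2 * this

/-- the first edge -/
theorem pt1 (l : ℤ) (K : ℕ) (g h : ℚ) (x y : ℝ) (t : ℝ) :
    (1 + (l : ℂ)) / 2 * ((starRingEnd ℂ) om * x + ((Real.sqrt 3 : ℂ) + Complex.I / 4) * y) *
      (om ^ (l - 1) * Ph (((l - 1 : ℤ) : ℝ) / 2) (((-(l - 1) : ℤ) : ℝ) / 2) (ζ1 A B t))
    + (1 - (l : ℂ)) / 2 * (starRingEnd ℂ) ((starRingEnd ℂ) om * x + ((Real.sqrt 3 : ℂ) + Complex.I / 4) * y) *
      (om ^ (l + 1) * Ph (((l + 1 : ℤ) : ℝ) / 2) (((-(l + 1) : ℤ) : ℝ) / 2) (ζ1 A B t)) =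
    x * lfV A B Z1 (FA1 l K g h) t + y * (Complex.I * lfV A B Z1 (FB1 l K g h) t) := by
  have h4 : (starRingEnd ℂ) (4 : ℂ) = 4 := Complex.conj_ofReal 4
  unfold lfV FA1 FB1
  simp only [List.map_cons, List.map_nil, List.sum_cons, List.sum_nil, ki_v, zeta1_ev, evC_mul, evC_om2, map_add,
    map_mul, Complex.conj_conj, Complex.conj_ofReal, Complex.conj_I, map_div₀, h4]
  have a1 : om ^ (l - 2) = (starRingEnd ℂ) om * om ^ (l - 1) := by
    rw [conj_om, ← zpow_add₀ om0]; congr 1; ring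
  have a2 : om ^ (l + 2) = om * om ^ (l + 1) := by
    rw [show l + 2 = (l + 1) + 1 by ring, zpow_add_one₀ om0, mul_comm]
  rw [a1, a2]
  have hs : (Real.sqrt 3 : ℂ) = -Complex.I * s3 := by
    unfold s3
    linear_combination (Real.sqrt 3 : ℂ) * Complex.I_mul_I
  rw [hs]
  simp only [evC]
  push_cast
  ring

/-- the second edge -/
theorem pt2 (l : ℤ) (K : ℕ) (g h : ℚ) (x y : ℝ) (t : ℝ) :
    (1 + (l : ℂ)) / 2 * ((starRingEnd ℂ) om ^ 2 * x + ((Real.sqrt 3 : ℂ) - Complex.I / 4) * y) *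
      ((om ^ 2) ^ (l - 1) * Ph (((l - 1 : ℤ) : ℝ) / 2) (((-(l - 1) : ℤ) : ℝ) / 2) (ζ2 A B t))
    + (1 - (l : ℂ)) / 2 * (starRingEnd ℂ) ((starRingEnd ℂ) om ^ 2 * x + ((Real.sqrt 3 : ℂ) - Complex.I / 4) * y) *
      ((om ^ 2) ^ (l + 1) * Ph (((l + 1 : ℤ) : ℝ) / 2) (((-(l + 1) : ℤ) : ℝ) / 2) (ζ2 A B t)) =
    x * lfV A B Z2 (FA2 l K g h) t + y * (Complex.I * lfV A B Z2 (FB2 l K g h) t) := by
  have h4 : (starRingEnd ℂ) (4 : ℂ) = 4 := Complex.conj_ofReal 4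
  unfold lfV FA2 FB2
  simp only [List.map_cons, List.map_nil, List.sum_cons, List.sum_nil, ki_v, zeta2_ev, evC_mul, evC_om2, map_add,
    map_mul, map_sub, map_pow, Complex.conj_conj, Complex.conj_ofReal, Complex.conj_I, map_div₀, h4]
  have p1 : (om ^ 2) ^ (l - 1) = om ^ (2 * l - 2) := by
    rw [← zpow_natCast, ← zpow_mul]; congr 1; push_cast; ring
  have p2 : (om ^ 2) ^ (l + 1) = om ^ (2 * l + 2) := by
    rw [← zpow_natCast, ← zpow_mul]; congr 1; push_cast; ring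
  have a1 : om ^ (2 * l - 4) = (starRingEnd ℂ) om ^ 2 * om ^ (2 * l - 2) := by
    rw [conj_om, ← zpow_natCast, ← zpow_mul, ← zpow_add₀ om0]; congr 1; push_cast; ring
  have a2 : om ^ (2 * l + 4) = om ^ 2 * om ^ (2 * l + 2) := by
    rw [← zpow_natCast, ← zpow_add₀ om0]; congr 1; push_cast; ring
  rw [a1, a2, p1, p2]
  have hs : (Real.sqrt 3 : ℂ) = -Complex.I * s3 := by
    unfold s3
    linear_combination (Real.sqrt 3 : ℂ) * Complex.I_mul_I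
  rw [hs]
  simp only [evC]
  push_cast
  ring

end Pool.Agent.Helper40.C3
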