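import Pool.Agent.Helper40.C3.Ct
import Pool.Agent.Helper40.C3.Lk

/-!
# Project RC, SHARP, zone I, (C3): the rows `l ≥ 20` of the harmonics `± 2` of `β`
-/

set_option autoImplicit false

open MeasureTheory Set Filter Topology

namespace Pool.Agent.Helper40.C3

open Helper49.LT hiding sg s3 eR
open Helper49.RC (om)
open Helper44.GQ
open Helper49.Sharp hiding mean
open Helper56.RC (fc)
open Pool.Agent.Helper20.RC (eM eD lk lk_sq)
open Pool.Agent.Helper43.SH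
open Pool.Agent.Helper61.RC.QC (h2F)
open Pool.Agent.Helper26.SH
open Pool.Agent.Helper35.Cas (mean mean_add mean_sub)
open Pool.Agent.Helper33.SH (PI ZC z0I b0I om_mul om_norm om_cube)

variable {A : ℝ} {B : ℂ}

theorem sq34 : ((Real.sqrt 3 : ℂ) + Complex.I / 4) = ⟨Real.sqrt 3, 1 / 4⟩ := by
  apply Complex.ext <;> simp

theorem sq34' : ((Real.sqrt 3 : ℂ) - Complex.I / 4) = ⟨Real.sqrt 3, -(1 / 4)⟩ := by
  apply Complex.ext <;> simp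

theorem Tn_real_per {κ m x2 y2 x3 y3 p q r s : ℂ} {l : ℕ} (t : ℝ) :
    Tn A B κ m x2 y2 x3 y3 p q r s l ((t + 2 * Real.pi : ℝ) : ℂ) = Tn A B κ m x2 y2 x3 y3 p q r s l (t : ℂ) := by
  have := Tn_per (A := A) (B := B) (κ := κ) (m := m) (x2 := x2) (y2 := y2) (x3 := x3) (y3 := y3) (p := p) (q := q)
    (r := r) (s := s) (l := l) (t : ℂ)
  rw [← this]
  congr 1
  push_cast
  ring

theorem h2C_re (β : ℝ → ℂ) (t : ℝ) : (((h2F β t).re : ℝ) : ℂ) =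
    h2C (fc (fun x => ((β x).re : ℂ)) 2) ((starRingEnd ℂ) (fc (fun x => ((β x).re : ℂ)) 2)) t := by
  rw [h2_re]
  unfold h2C
  rw [xx_real, xx_real]
  push_cast
  rfl

theorem h2C_im (β : ℝ → ℂ) (t : ℝ) : (((h2F β t).im : ℝ) : ℂ) =
    h2C (fc (fun x => ((β x).im : ℂ)) 2) ((starRingEnd ℂ) (fc (fun x => ((β x).im : ℂ)) 2)) t := by
  rw [h2_im]
  unfold h2C
  rw [xx_real, xx_real]
  push_cast
  rfl

/-- one row by the contour -/
theorem row_ct (c : ZC) {E r0 : ℝ} (hE : 1 ≤ E) (hE2 : 459 / 200 ≤ E ^ 2)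
    (hE6 : 12 ≤ E ^ 6) (hE10 : 64 ≤ E ^ 10) (hA : 0 ≤ A)
    (hX : (A + 8 / 5 * ‖B‖) * E ^ 5 ≤ 4 / 5) (hX1 : A + 8 / 5 * ‖B‖ ≤ 1 / 10)
    (hr : 0 ≤ r0) (hr2 : r0 ^ 2 = 3 / 2) (β : ℝ → ℂ) (l : ℕ) (hl : 1 ≤ l) :
    ‖eM (f1R (h2F β) (fun _ => 0)) (f2R (h2F β) (fun _ => 0)) (PI c A B).ph1 (PI c A B).ph2 (l : ℝ)‖ ≤
      2 * ((E ^ l)⁻¹ * r0 ^ (l - 1) * ((5 * l - 1) / 4 * ((‖fc (fun x => ((β x).re : ℂ)) 2‖
        + 7 / 4 * ‖fc (fun x => ((β x).im : ℂ)) 2‖) * (E ^ 2 + (E ^ 2)⁻¹)))) := by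
  have hlog : 0 ≤ Real.log E := Real.log_nonneg hE
  set p := fc (fun x => ((β x).re : ℂ)) 2 with hp
  set r := fc (fun x => ((β x).im : ℂ)) 2 with hrr
  have n1 : ‖(starRingEnd ℂ) om‖ = 1 := om_conj_norm
  have hz : ∀ (m : ℂ), ‖m‖ = 1 → ∀ t : ℝ, ‖Zf A B m t‖ < 1 := fun m hm t =>
    (strip_lt hE hE2 hA hX hX1 hm (z := (t : ℂ)) (by simp; exact hlog) (by simp)).1
  set T1 : ℝ → ℂ := fun t => Tn A B om ((starRingEnd ℂ) om) ((starRingEnd ℂ) om) om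
    ((Real.sqrt 3 : ℂ) + Complex.I / 4) ((Real.sqrt 3 : ℂ) - Complex.I / 4) p ((starRingEnd ℂ) p) r
    ((starRingEnd ℂ) r) l t with hT1
  set T2 : ℝ → ℂ := fun t => Tn A B (om ^ 2) om ((starRingEnd ℂ) om ^ 2) (om ^ 2)
    ((Real.sqrt 3 : ℂ) - Complex.I / 4) ((Real.sqrt 3 : ℂ) + Complex.I / 4) p ((starRingEnd ℂ) p) r
    ((starRingEnd ℂ) r) l t with hT2
  have h4 : (starRingEnd ℂ) (4 : ℂ) = 4 := Complex.conj_ofReal 4
  have q1 : ∀ θ, eD (f1R (h2F β) (fun _ => 0)) (PI c A B).ph1 (l : ℝ) θ = T1 (θ - Real.pi / 3) := by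
    intro θ
    rw [eD_frame (g1L (h2F β (θ - Real.pi / 3)) 0) (θ - Real.pi / 3) ((PI c A B).ph1 θ) l
      (f1R (h2F β) (fun _ => 0)) θ (PI c A B).ph1 rfl rfl]
    have ha : (PI c A B).ph1 θ - (θ - Real.pi / 3) =
        (om * (1 + Zf A B ((starRingEnd ℂ) om) ((θ - Real.pi / 3 : ℝ) : ℂ))).arg := by
      show θ - Real.pi / 3 + (om + z0I A B (θ - Real.pi / 3)).arg - (θ - Real.pi / 3) = _
      rw [Zf_real]
      have e1 : om * (1 + (starRingEnd ℂ) om * z0I A B (θ - Real.pi / 3)) = om + z0I A B (θ - Real.pi / 3) := by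
        linear_combination (z0I A B (θ - Real.pi / 3)) * om_mul
      rw [e1]
      ring
    have hg : g1L (h2F β (θ - Real.pi / 3)) 0 = (starRingEnd ℂ) om * (((h2F β (θ - Real.pi / 3)).re : ℝ) : ℂ)
        + ((Real.sqrt 3 : ℂ) + Complex.I / 4) * (((h2F β (θ - Real.pi / 3)).im : ℝ) : ℂ) := by
      unfold g1L
      rw [add_zero]
    rw [ha, hg]
    exact Tn_real om_norm hl (Complex.conj_conj om) (by
      rw [map_add, map_div₀, Complex.conj_I, Complex.conj_ofReal, h4]; ring) (hz _ n1 _) _ _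
      (h2C_re β _) (h2C_im β _)
  have q2 : ∀ θ, eD (f2R (h2F β) (fun _ => 0)) (PI c A B).ph2 (l : ℝ) θ = T2 (θ - 2 * Real.pi / 3) := by
    intro θ
    rw [eD_frame (g2L (h2F β (θ - 2 * Real.pi / 3)) 0) (θ - 2 * Real.pi / 3) ((PI c A B).ph2 θ) l
      (f2R (h2F β) (fun _ => 0)) θ (PI c A B).ph2 rfl rfl]
    have ha : (PI c A B).ph2 θ - (θ - 2 * Real.pi / 3) =
        (om ^ 2 * (1 + Zf A B om ((θ - 2 * Real.pi / 3 : ℝ) : ℂ))).arg := by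
      show θ - 2 * Real.pi / 3 + (om ^ 2 - z0I A B (θ - 2 * Real.pi / 3)).arg - (θ - 2 * Real.pi / 3) = _
      rw [Zf_real]
      have e1 : om ^ 2 * (1 + om * z0I A B (θ - 2 * Real.pi / 3)) = om ^ 2 - z0I A B (θ - 2 * Real.pi / 3) := by
        linear_combination (z0I A B (θ - 2 * Real.pi / 3)) * om_cube
      rw [e1]
      ring
    have hg : g2L (h2F β (θ - 2 * Real.pi / 3)) 0 =
        (starRingEnd ℂ) om ^ 2 * (((h2F β (θ - 2 * Real.pi / 3)).re : ℝ) : ℂ)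
        + ((Real.sqrt 3 : ℂ) - Complex.I / 4) * (((h2F β (θ - 2 * Real.pi / 3)).im : ℝ) : ℂ) := by
      unfold g2L
      rw [sub_zero]
    rw [ha, hg]
    exact Tn_real (by rw [norm_pow, om_norm, one_pow]) hl (by rw [map_pow, Complex.conj_conj]) (by
      rw [map_sub, map_div₀, Complex.conj_I, Complex.conj_ofReal, h4]; ring) (hz _ om_norm _) _ _
      (h2C_re β _) (h2C_im β _)
  have hcont : ∀ {κ m x2 y2 x3 y3 : ℂ}, ‖m‖ = 1 → Continuous fun t : ℝ => Tn A B κ m x2 y2 x3 y3 p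
      ((starRingEnd ℂ) p) r ((starRingEnd ℂ) r) l t := by
    intro κ m x2 y2 x3 y3 hm
    refine continuous_iff_continuousAt.2 fun t => ?_
    obtain ⟨z1, z2⟩ := strip_lt hE hE2 hA hX hX1 hm (z := (t : ℂ)) (by simp; exact hlog) (by simp)
    exact ((Tn_diff (κ := κ) (x2 := x2) (y2 := y2) (x3 := x3) (y3 := y3) (p := p) (q := (starRingEnd ℂ) p) (r := r)
      (s := (starRingEnd ℂ) r) (l := l) z1 z2).continuousAt).comp Complex.continuous_ofReal.continuousAt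
  have k1 : Continuous T1 := hcont n1
  have k2 : Continuous T2 := hcont om_norm
  have k1' : Continuous fun θ => T1 (θ - Real.pi / 3) := k1.comp (by fun_prop)
  have k2' : Continuous fun θ => T2 (θ - 2 * Real.pi / 3) := k2.comp (by fun_prop)
  have e0 : eM (f1R (h2F β) (fun _ => 0)) (f2R (h2F β) (fun _ => 0)) (PI c A B).ph1 (PI c A B).ph2 (l : ℝ) =
      mean T1 + mean T2 := by
    have : eM (f1R (h2F β) (fun _ => 0)) (f2R (h2F β) (fun _ => 0)) (PI c A B).ph1 (PI c A B).ph2 (l : ℝ) =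
      mean (fun θ => eD (f1R (h2F β) (fun _ => 0)) (PI c A B).ph1 (l : ℝ) θ
        + eD (f2R (h2F β) (fun _ => 0)) (PI c A B).ph2 (l : ℝ) θ) := rfl
    rw [this]
    have e : (fun θ => eD (f1R (h2F β) (fun _ => 0)) (PI c A B).ph1 (l : ℝ) θ
        + eD (f2R (h2F β) (fun _ => 0)) (PI c A B).ph2 (l : ℝ) θ) =
        fun θ => T1 (θ - Real.pi / 3) + T2 (θ - 2 * Real.pi / 3) := by
      funext θ
      rw [q1, q2]
    rw [e, mean_add k1' k2', mean_sub (fun t => Tn_real_per t), mean_sub (fun t => Tn_real_per t)]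
  have nc : ‖(starRingEnd ℂ) p‖ ≤ ‖p‖ := (Complex.norm_conj _).le
  have nd : ‖(starRingEnd ℂ) r‖ ≤ ‖r‖ := (Complex.norm_conj _).le
  have n34 : ‖((Real.sqrt 3 : ℂ) + Complex.I / 4)‖ = 7 / 4 := by rw [sq34]; exact norm_s34 _ (by norm_num)
  have n34' : ‖((Real.sqrt 3 : ℂ) - Complex.I / 4)‖ = 7 / 4 := by rw [sq34']; exact norm_s34 _ (by norm_num)
  have i1 := Tn_int (κ := om) (m := (starRingEnd ℂ) om) (x2 := (starRingEnd ℂ) om) (y2 := om)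
    (x3 := ((Real.sqrt 3 : ℂ) + Complex.I / 4)) (y3 := ((Real.sqrt 3 : ℂ) - Complex.I / 4)) (p := p)
    (q := (starRingEnd ℂ) p) (r := r) (s := (starRingEnd ℂ) r) (l := l) hE hE2 hE6 hE10 hA hX hX1 om_norm n1
    om_conj_sq_re n1 om_norm n34 n34' le_rfl nc le_rfl nd hr hr2 hl
  have i2 := Tn_int (κ := om ^ 2) (m := om) (x2 := (starRingEnd ℂ) om ^ 2) (y2 := om ^ 2)
    (x3 := ((Real.sqrt 3 : ℂ) - Complex.I / 4)) (y3 := ((Real.sqrt 3 : ℂ) + Complex.I / 4)) (p := p)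
    (q := (starRingEnd ℂ) p) (r := r) (s := (starRingEnd ℂ) r) (l := l) hE hE2 hE6 hE10 hA hX hX1
    (by rw [norm_pow, om_norm, one_pow]) om_norm om_sq_re (by rw [norm_pow, n1, one_pow])
    (by rw [norm_pow, om_norm, one_pow]) n34' n34 le_rfl nc le_rfl nd hr hr2 hl
  rw [e0]
  refine (norm_add_le _ _).trans ((add_le_add i1 i2).trans (le_of_eq ?_))
  ring

/-- **the rows `l ≥ 20`** -/
theorem tail20 (c : ZC) (hA : 0 ≤ A) (hX1 : A + 8 / 5 * ‖B‖ ≤ 1 / 12) (β : ℝ → ℂ) (n : ℕ) :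
    ∑ k ∈ Finset.range n, ‖eR (PI c A B) (h2F β) (fun _ => 0) (k + 9)‖ ^ 2 / (lk (k + 9) ^ 2 - 1) ≤
      103 / 10000 * (‖fc (fun x => ((β x).re : ℂ)) 2‖ ^ 2 + ‖fc (fun x => ((β x).im : ℂ)) 2‖ ^ 2) := by
  have hB := norm_nonneg B
  set P := ‖fc (fun x => ((β x).re : ℂ)) 2‖ with hP
  set R := ‖fc (fun x => ((β x).im : ℂ)) 2‖ with hR
  have hP0 : 0 ≤ P := norm_nonneg _
  have hR0 : 0 ≤ R := norm_nonneg _
  set r0 := Real.sqrt (3 / 2) with hr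
  have hr0 : 0 ≤ r0 := Real.sqrt_nonneg _
  have hr2 : r0 ^ 2 = 3 / 2 := Real.sq_sqrt (by norm_num)
  obtain ⟨x, hx⟩ : ∃ x : ℝ, x = 3 / 2 * ((393 / 250 : ℝ) ^ 2)⁻¹ := ⟨_, rfl⟩
  have hx0 : 0 ≤ x := by rw [hx]; positivity
  have hx1 : x ≤ 607 / 1000 := by rw [hx]; norm_num
  have hterm : ∀ k : ℕ, ‖eR (PI c A B) (h2F β) (fun _ => 0) (k + 9)‖ ^ 2 / (lk (k + 9) ^ 2 - 1) ≤
      14001 / 100 * (P ^ 2 + R ^ 2) * (x ^ 20 * (x ^ 2) ^ k) := by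
    intro k
    have h := row_ct (A := A) (B := B) c (E := 393 / 250) (r0 := r0) (by norm_num) (by norm_num) (by norm_num)
      (by norm_num) hA (by nlinarith) (by linarith) hr0 hr2 β (2 * k + 20) (by omega)
    have hpos := lk_sq (k + 9)
    have hlk : lk (k + 9) = (((2 * k + 20 : ℕ)) : ℝ) := by unfold lk; push_cast; ring
    unfold eR
    rw [hlk] at hpos ⊢
    rw [div_le_iff₀ hpos]
    have h2 := pow_le_pow_left₀ (norm_nonneg _) h 2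
    refine h2.trans ?_
    set L : ℝ := ((2 * k + 20 : ℕ) : ℝ) with hL
    have hL20 : 20 ≤ L := by rw [hL]; push_cast; linarith [(Nat.cast_nonneg k : (0 : ℝ) ≤ k)]
    have e2 : (2 * (((393 / 250 : ℝ) ^ (2 * k + 20))⁻¹ * r0 ^ (2 * k + 20 - 1) * ((5 * L - 1) / 4 *
        ((P + 7 / 4 * R) * ((393 / 250 : ℝ) ^ 2 + ((393 / 250 : ℝ) ^ 2)⁻¹))))) ^ 2 =
        4 * ((5 * L - 1) / 4) ^ 2 * (P + 7 / 4 * R) ^ 2 * ((393 / 250 : ℝ) ^ 2 + ((393 / 250 : ℝ) ^ 2)⁻¹) ^ 2 *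
        ((((393 / 250 : ℝ) ^ (2 * k + 20))⁻¹) ^ 2 * (r0 ^ (2 * k + 20 - 1)) ^ 2) := by ring
    have e3 : (((393 / 250 : ℝ) ^ (2 * k + 20))⁻¹) ^ 2 * (r0 ^ (2 * k + 20 - 1)) ^ 2 =
        2 / 3 * (x ^ 20 * (x ^ 2) ^ k) := by
      have a1 : (((393 / 250 : ℝ) ^ (2 * k + 20))⁻¹) ^ 2 = (((393 / 250 : ℝ) ^ 2)⁻¹) ^ (2 * k + 20) := by
        rw [← inv_pow, ← inv_pow, ← pow_mul, ← pow_mul]
        congr 1
        ring
      have a2 : (r0 ^ (2 * k + 20 - 1)) ^ 2 = (3 / 2) ^ (2 * k + 19) := by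
        rw [← pow_mul, mul_comm, pow_mul, hr2]
        congr 1
      rw [a1, a2, hx]
      have a3 : (3 / 2 * ((393 / 250 : ℝ) ^ 2)⁻¹) ^ 20 * ((3 / 2 * ((393 / 250 : ℝ) ^ 2)⁻¹) ^ 2) ^ k =
          (3 / 2) ^ (2 * k + 20) * (((393 / 250 : ℝ) ^ 2)⁻¹) ^ (2 * k + 20) := by
        rw [← pow_mul, ← pow_add, mul_pow]
        congr 2 <;> ring
      rw [a3]
      have a4 : (3 / 2 : ℝ) ^ (2 * k + 20) = (3 / 2) ^ (2 * k + 19) * (3 / 2) := pow_succ _ _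
      rw [a4]
      ring
    rw [e2, e3]
    have hy : 0 ≤ x ^ 20 * (x ^ 2) ^ k := by positivity
    have h3 : ((5 * L - 1) / 4) ^ 2 ≤ 25 / 16 * (L ^ 2 - 1) := by nlinarith
    have h4 : (P + 7 / 4 * R) ^ 2 ≤ 65 / 16 * (P ^ 2 + R ^ 2) := by nlinarith [sq_nonneg (7 / 4 * P - R)]
    have h5 : ((393 / 250 : ℝ) ^ 2 + ((393 / 250 : ℝ) ^ 2)⁻¹) ^ 2 ≤ 82709 / 10000 := by norm_num
    have h6 : ((5 * L - 1) / 4) ^ 2 * (P + 7 / 4 * R) ^ 2 * ((393 / 250 : ℝ) ^ 2 + ((393 / 250 : ℝ) ^ 2)⁻¹) ^ 2 ≤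
        25 / 16 * (L ^ 2 - 1) * (65 / 16 * (P ^ 2 + R ^ 2)) * (82709 / 10000) :=
      mul_le_mul (mul_le_mul h3 h4 (by positivity) (by linarith)) h5 (by positivity)
        (mul_nonneg (by linarith) (by positivity))
    have h7 : 0 ≤ (L ^ 2 - 1) * (P ^ 2 + R ^ 2) * (x ^ 20 * (x ^ 2) ^ k) :=
      mul_nonneg (mul_nonneg hpos.le (by positivity)) hy
    calc 4 * ((5 * L - 1) / 4) ^ 2 * (P + 7 / 4 * R) ^ 2 * ((393 / 250 : ℝ) ^ 2 + ((393 / 250 : ℝ) ^ 2)⁻¹) ^ 2 *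
        (2 / 3 * (x ^ 20 * (x ^ 2) ^ k))
        = (((5 * L - 1) / 4) ^ 2 * (P + 7 / 4 * R) ^ 2 * ((393 / 250 : ℝ) ^ 2 + ((393 / 250 : ℝ) ^ 2)⁻¹) ^ 2) *
        (8 / 3 * (x ^ 20 * (x ^ 2) ^ k)) := by ring
      _ ≤ (25 / 16 * (L ^ 2 - 1) * (65 / 16 * (P ^ 2 + R ^ 2)) * (82709 / 10000)) *
        (8 / 3 * (x ^ 20 * (x ^ 2) ^ k)) := mul_le_mul_of_nonneg_right h6 (by positivity)
      _ = (25 / 16 * (65 / 16) * (82709 / 10000) * (8 / 3)) *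
        ((L ^ 2 - 1) * (P ^ 2 + R ^ 2) * (x ^ 20 * (x ^ 2) ^ k)) := by ring
      _ ≤ 14001 / 100 * ((L ^ 2 - 1) * (P ^ 2 + R ^ 2) * (x ^ 20 * (x ^ 2) ^ k)) :=
        mul_le_mul_of_nonneg_right (by norm_num) h7
      _ = _ := by ring
  refine (Finset.sum_le_sum fun k _ => hterm k).trans ?_
  rw [← Finset.mul_sum, ← Finset.mul_sum]
  have hx2 : x ^ 2 ≤ 36845 / 100000 := by
    have := pow_le_pow_left₀ hx0 hx1 2
    norm_num at this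
    linarith
  have hx2n : 0 ≤ x ^ 2 := by positivity
  have hgeo : ∑ k ∈ Finset.range n, (x ^ 2) ^ k ≤ 15835 / 10000 := by
    have h1 : x ^ 2 < 1 := by linarith
    have hs := (summable_geometric_of_lt_one hx2n h1).sum_le_tsum (Finset.range n) (fun k _ => by positivity)
    rw [tsum_geometric_of_lt_one hx2n h1] at hs
    refine hs.trans ?_
    rw [inv_le_comm₀ (by linarith) (by norm_num)]
    have h9 : (15835 / 10000 : ℝ)⁻¹ ≤ 1 - 36845 / 100000 := by norm_num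
    linarith
  have hx20 : x ^ 20 ≤ 4612 / 100000000 := by
    have := pow_le_pow_left₀ hx0 hx1 20
    refine this.trans ?_
    norm_num
  have hS : 0 ≤ P ^ 2 + R ^ 2 := by positivity
  have hx20n : 0 ≤ x ^ 20 := by positivity
  calc 14001 / 100 * (P ^ 2 + R ^ 2) * (x ^ 20 * ∑ k ∈ Finset.range n, (x ^ 2) ^ k)
      ≤ 14001 / 100 * (P ^ 2 + R ^ 2) * (4612 / 100000000 * (15835 / 10000)) :=
        mul_le_mul_of_nonneg_left (mul_le_mul hx20 hgeo (Finset.sum_nonneg fun k _ => by positivity)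
          (by norm_num)) (by positivity)
    _ = (14001 / 100 * (4612 / 100000000 * (15835 / 10000))) * (P ^ 2 + R ^ 2) := by ring
    _ ≤ _ := mul_le_mul_of_nonneg_right (by norm_num) hS

end Pool.Agent.Helper40.C3
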