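import Pool.Agent.Helper40.C3.Rw

/-!
# Project RC, SHARP, zone I, (C3): the rows `l = 4, .., 18`, kernel checks, second part
-/

set_option autoImplicit false

namespace Pool.Agent.Helper40.C3

theorem l12 : R12.okL = true := by decide +kernel
theorem a12 : R12.okA = true := by decide +kernel
theorem b12 : R12.okB = true := by decide +kernel
theorem l14 : R14.okL = true := by decide +kernel
theorem a14 : R14.okA = true := by decide +kernel
theorem b14 : R14.okB = true := by decide +kernel
theorem l16 : R16.okL = true := by decide +kernel
theorem a16 : R16.okA = true := by decide +kernel
theorem b16 : R16.okB = true := by decide +kernel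
theorem l18 : R18.okL = true := by decide +kernel
theorem a18 : R18.okA = true := by decide +kernel
theorem b18 : R18.okB = true := by decide +kernel

end Pool.Agent.Helper40.C3
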