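import Pool.Agent.Helper40.C3.RwC
import Pool.Agent.Helper40.C3.RwD
import Pool.Agent.Helper40.C3.Cu

/-!
# Project RC, SHARP, zone I, (C3): the harmonics `± 2` of `β` in the rows `l ≥ 4`

`stC3`: `∑_{l ≥ 4} |e_l(b_2)|² / (l² - 1) ≤ (1/50) (2 |p_2|² + 2 |r_2|²)`, radius `1/12`.
-/

set_option autoImplicit false

open MeasureTheory Set Filter Topology

namespace Pool.Agent.Helper40.C3

open Helper49.LT hiding sg s3 eR
open Helper49.Sharp hiding mean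
open Helper56.RC (fc)
open Pool.Agent.Helper20.RC (eM eD lk lk_sq)
open Pool.Agent.Helper43.SH
open Pool.Agent.Helper61.RC.QC (h2F StC3 StC3c)
open Pool.Agent.Helper33.SH (PI ZC z0I b0I)

/-- the eight rows -/
def rws : List RD := [R4, R6, R8, R10, R12, R14, R16, R18]

/-- the contribution of a row -/
def RD.q (R : RD) (a y : ℚ) : ℚ := ((R.xa a y) ^ 2 + (R.xb a y) ^ 2) / ((R.l : ℚ) ^ 2 - 1)

def tot (a y : ℚ) : ℚ := R4.q a y + R6.q a y + R8.q a y + R10.q a y + R12.q a y + R14.q a y + R16.q a y + R18.q a y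

theorem box1 : tot (1 / 48) (5 / 96) ≤ 204 / 10000 := by decide +kernel
theorem box2 : tot (2 / 48) (15 / 384) ≤ 204 / 10000 := by decide +kernel
theorem box3 : tot (3 / 48) (10 / 384) ≤ 204 / 10000 := by decide +kernel
theorem box4 : tot (4 / 48) (5 / 384) ≤ 204 / 10000 := by decide +kernel

/-- the square of a row -/
theorem RD.sq (R : RD) (hL : R.okL = true) (hA' : R.okA = true) (hB' : R.okB = true) (hl1 : 2 ≤ R.l) (c : ZC) {A : ℝ}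
    {B : ℂ} (h : ‖(A : ℂ)‖ + 3 / 2 * ‖B‖ ≤ 1 / 12) {a y : ℚ} (hA : ‖(A : ℂ)‖ ≤ (a : ℝ)) (hB : ‖B‖ ≤ (y : ℝ))
    (β : ℝ → ℂ) (k : ℕ) (hk : lk k = (R.l : ℝ)) :
    ‖eR (PI c A B) (h2F β) (fun _ => 0) k‖ ^ 2 / (lk k ^ 2 - 1) ≤
      (R.q a y : ℝ) * (‖fc (fun x => ((β x).re : ℂ)) 2‖ ^ 2 + ‖fc (fun x => ((β x).im : ℂ)) 2‖ ^ 2) := by
  have h1 := R.row hL hA' hB' c h hA hB β
  set P := ‖fc (fun x => ((β x).re : ℂ)) 2‖
  set Q := ‖fc (fun x => ((β x).im : ℂ)) 2‖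
  have hpos := lk_sq k
  unfold eR
  rw [hk] at hpos ⊢
  rw [div_le_iff₀ hpos]
  have h2 := pow_le_pow_left₀ (norm_nonneg _) h1 2
  have h3 : ((R.q a y : ℚ) : ℝ) * ((R.l : ℝ) ^ 2 - 1) = (R.xa a y : ℝ) ^ 2 + (R.xb a y : ℝ) ^ 2 := by
    unfold RD.q
    push_cast
    rw [div_mul_cancel₀ _ hpos.ne']
  have h4 : ((R.xa a y : ℝ) * P + (R.xb a y : ℝ) * Q) ^ 2 ≤
      ((R.xa a y : ℝ) ^ 2 + (R.xb a y : ℝ) ^ 2) * (P ^ 2 + Q ^ 2) := by
    nlinarith [sq_nonneg ((R.xa a y : ℝ) * Q - (R.xb a y : ℝ) * P)]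
  calc _ ≤ _ := h2
    _ ≤ _ := h4
    _ = _ := by rw [← h3]; ring

/-- the eight rows on a box -/
theorem rows8 (c : ZC) {A : ℝ} {B : ℂ} (h : ‖(A : ℂ)‖ + 3 / 2 * ‖B‖ ≤ 1 / 12) {a y : ℚ}
    (hA : ‖(A : ℂ)‖ ≤ (a : ℝ)) (hB : ‖B‖ ≤ (y : ℝ)) (β : ℝ → ℂ) (hq : tot a y ≤ 204 / 10000) :
    ∑ k ∈ Finset.range 8, ‖eR (PI c A B) (h2F β) (fun _ => 0) (k + 1)‖ ^ 2 / (lk (k + 1) ^ 2 - 1) ≤
      204 / 10000 * (‖fc (fun x => ((β x).re : ℂ)) 2‖ ^ 2 + ‖fc (fun x => ((β x).im : ℂ)) 2‖ ^ 2) := by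
  have k1 := R4.sq l4 a4 b4 (by decide) c h hA hB β 1 (by unfold lk R4; norm_num)
  have k2 := R6.sq l6 a6 b6 (by decide) c h hA hB β 2 (by unfold lk R6; norm_num)
  have k3 := R8.sq l8 a8 b8 (by decide) c h hA hB β 3 (by unfold lk R8; norm_num)
  have k4 := R10.sq l10 a10 b10 (by decide) c h hA hB β 4 (by unfold lk R10; norm_num)
  have k5 := R12.sq l12 a12 b12 (by decide) c h hA hB β 5 (by unfold lk R12; norm_num)
  have k6 := R14.sq l14 a14 b14 (by decide) c h hA hB β 6 (by unfold lk R14; norm_num)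
  have k7 := R16.sq l16 a16 b16 (by decide) c h hA hB β 7 (by unfold lk R16; norm_num)
  have k8 := R18.sq l18 a18 b18 (by decide) c h hA hB β 8 (by unfold lk R18; norm_num)
  set S := ‖fc (fun x => ((β x).re : ℂ)) 2‖ ^ 2 + ‖fc (fun x => ((β x).im : ℂ)) 2‖ ^ 2 with hS
  have hS0 : 0 ≤ S := by positivity
  have hq' : ((tot a y : ℚ) : ℝ) ≤ 204 / 10000 := by
    have := (Rat.cast_le (K := ℝ)).2 hq
    push_cast at this
    exact this
  have e : ((tot a y : ℚ) : ℝ) = (R4.q a y : ℝ) + R6.q a y + R8.q a y + R10.q a y + R12.q a y + R14.q a y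
      + R16.q a y + R18.q a y := by
    unfold tot
    push_cast
    ring
  rw [e] at hq'
  have := mul_le_mul_of_nonneg_right hq' hS0
  simp only [Finset.sum_range_succ, Finset.sum_range_zero, zero_add]
  norm_num only at k1 k2 k3 k4 k5 k6 k7 k8 ⊢
  linarith

/-- the eight rows -/
theorem rows (c : ZC) {A : ℝ} {B : ℂ} (hA : 0 ≤ A) (hX : A + 8 / 5 * ‖B‖ ≤ 1 / 12) (β : ℝ → ℂ) :
    ∑ k ∈ Finset.range 8, ‖eR (PI c A B) (h2F β) (fun _ => 0) (k + 1)‖ ^ 2 / (lk (k + 1) ^ 2 - 1) ≤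
      204 / 10000 * (‖fc (fun x => ((β x).re : ℂ)) 2‖ ^ 2 + ‖fc (fun x => ((β x).im : ℂ)) 2‖ ^ 2) := by
  have hB := norm_nonneg B
  have nA : ‖(A : ℂ)‖ = A := by rw [Complex.norm_real, Real.norm_eq_abs, abs_of_nonneg hA]
  have h : ‖(A : ℂ)‖ + 3 / 2 * ‖B‖ ≤ 1 / 12 := by rw [nA]; linarith
  rcases le_total A (1 / 48) with h1 | h1
  · exact rows8 c h (a := 1 / 48) (y := 5 / 96) (by rw [nA]; push_cast; linarith) (by push_cast; linarith) β box1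
  · rcases le_total A (2 / 48) with h2 | h2
    · exact rows8 c h (a := 2 / 48) (y := 15 / 384) (by rw [nA]; push_cast; linarith) (by push_cast; linarith) β box2
    · rcases le_total A (3 / 48) with h3 | h3
      · exact rows8 c h (a := 3 / 48) (y := 10 / 384) (by rw [nA]; push_cast; linarith) (by push_cast; linarith) β
          box3
      · exact rows8 c h (a := 4 / 48) (y := 5 / 384) (by rw [nA]; push_cast; linarith) (by push_cast; linarith) β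
          box4

/-- all rows `l ≥ 4` -/
theorem c3 (c : ZC) {A : ℝ} {B : ℂ} (hA : 0 ≤ A) (hX : A + 8 / 5 * ‖B‖ ≤ 1 / 12) (β : ℝ → ℂ) :
    ∑' k : ℕ, ‖eR (PI c A B) (h2F β) (fun _ => 0) (k + 1)‖ ^ 2 / (lk (k + 1) ^ 2 - 1) ≤
      2 / 125 * (2 * ‖fc (fun x => ((β x).re : ℂ)) 2‖ ^ 2 + 2 * ‖fc (fun x => ((β x).im : ℂ)) 2‖ ^ 2) := by
  have hP := sq_nonneg ‖fc (fun x => ((β x).re : ℂ)) 2‖
  have hQ := sq_nonneg ‖fc (fun x => ((β x).im : ℂ)) 2‖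
  refine Real.tsum_le_of_sum_range_le (fun k => div_nonneg (by positivity) (lk_sq _).le) fun n => ?_
  have h1 := rows c hA hX β
  have h2 := tail20 c hA hX β n
  have h3 : ∑ k ∈ Finset.range n, ‖eR (PI c A B) (h2F β) (fun _ => 0) (k + 1)‖ ^ 2 / (lk (k + 1) ^ 2 - 1) ≤
      ∑ k ∈ Finset.range (8 + n), ‖eR (PI c A B) (h2F β) (fun _ => 0) (k + 1)‖ ^ 2 / (lk (k + 1) ^ 2 - 1) :=
    Finset.sum_le_sum_of_subset_of_nonneg (Finset.range_mono (by omega)) fun k _ _ =>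
      div_nonneg (by positivity) (lk_sq _).le
  rw [Finset.sum_range_add] at h3
  have h4 : ∑ k ∈ Finset.range n, ‖eR (PI c A B) (h2F β) (fun _ => 0) (8 + k + 1)‖ ^ 2 / (lk (8 + k + 1) ^ 2 - 1) =
      ∑ k ∈ Finset.range n, ‖eR (PI c A B) (h2F β) (fun _ => 0) (k + 9)‖ ^ 2 / (lk (k + 9) ^ 2 - 1) :=
    Finset.sum_congr rfl fun k _ => by rw [show 8 + k + 1 = k + 9 by ring]
  rw [h4] at h3
  linarith

/-- **(C3)**, constant `2/125` -/
theorem stC3c : StC3c (2 / 125) := by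
  intro A B β ρ M p r s hA hX hR
  have h := c3 (zcI A B) hA hX β
  have e2 : fc (fun x => ((β x).re : ℂ)) 2 = p 2 := congrFun hR.hp 2
  have e3 : fc (fun x => ((β x).im : ℂ)) 2 = r 2 := congrFun hR.hr 2
  rw [e2, e3] at h
  exact h

/-- **(C3)**, constant `1/50` -/
theorem stC3 : StC3 := by
  intro A B β ρ M p r s hA hX hR
  have h := stC3c A B β ρ M p r s hA hX hR
  have h1 := sq_nonneg ‖p 2‖
  have h2 := sq_nonneg ‖r 2‖
  refine h.trans ?_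
  linarith

end Pool.Agent.Helper40.C3
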