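import Pool.Agent.Helper26.SH.ContE

/-!
# Project RC, SHARP, zone I, (C3): the rows `l ≥ 20` of the harmonics `± 2` of `β`, contour shift
-/

set_option autoImplicit false

open MeasureTheory Set Filter Topology

namespace Pool.Agent.Helper40.C3

open Helper49.LT hiding sg s3
open Helper49.RC Helper44.GQ Helper49.Sharp
open Pool.Agent.Helper43.SH
open Pool.Agent.Helper33.SH
open Pool.Agent.Helper26.SH

/-- a function with the harmonics `± 2` -/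
noncomputable def h2C (p q : ℂ) (z : ℂ) : ℂ := p * xx 2 z + q * xx (-2) z

/-- the density of the moment of one edge -/
noncomputable def Tn (A : ℝ) (B κ m x2 y2 x3 y3 p q r s : ℂ) (l : ℕ) (z : ℂ) : ℂ :=
  xx (-(l : ℤ)) z * Vf A B κ m z ^ (l - 1) *
    ((1 - (l : ℂ)) / 2 * (x2 * h2C p q z + x3 * h2C r s z) * Vf A B κ m z ^ 2
      + (1 + (l : ℂ)) / 2 * (y2 * h2C p q z + y3 * h2C r s z))

variable {A : ℝ} {B κ m x2 y2 x3 y3 p q r s : ℂ} {l : ℕ}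

theorem Tn_per (z : ℂ) : Tn A B κ m x2 y2 x3 y3 p q r s l (z + (2 * Real.pi : ℝ)) =
    Tn A B κ m x2 y2 x3 y3 p q r s l z := by
  unfold Tn Vf Zs Zf h2C
  simp only [fU_per, fUs_per, fV_per, fVs_per, xx_per]

theorem Tn_diff {z : ℂ} (h1 : ‖Zf A B m z‖ < 1) (h2 : ‖Zs A B m z‖ < 1) :
    DifferentiableAt ℂ (Tn A B κ m x2 y2 x3 y3 p q r s l) z := by
  have d1 : Differentiable ℂ (fU A) := by unfold fU; exact (xx_diff _).const_mul _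
  have d2 : Differentiable ℂ (fUs A) := by unfold fUs; exact (xx_diff _).const_mul _
  have d3 : Differentiable ℂ (fV B) := by unfold fV; exact (xx_diff _).const_mul _
  have d4 : Differentiable ℂ (fVs B) := by unfold fVs; exact (xx_diff _).const_mul _
  have dZ : Differentiable ℂ (Zf A B m) := by unfold Zf; fun_prop
  have dZs : Differentiable ℂ (Zs A B m) := by unfold Zs; fun_prop
  have dl1 : DifferentiableAt ℂ (fun z => Complex.log (1 + Zs A B m z)) z :=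
    ((differentiable_const _).add dZs z).clog (slit_one h2)
  have dl2 : DifferentiableAt ℂ (fun z => Complex.log (1 + Zf A B m z)) z :=
    ((differentiable_const _).add dZ z).clog (slit_one h1)
  have dV : DifferentiableAt ℂ (Vf A B κ m) z := by
    unfold Vf
    exact (((dl1.sub dl2).div_const 2).cexp).const_mul _
  have dx := xx_diff (-(l : ℤ)) z
  have dh : ∀ a b : ℂ, DifferentiableAt ℂ (h2C a b) z := by
    intro a b
    unfold h2C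
    exact ((xx_diff 2 z).const_mul _).add ((xx_diff (-2) z).const_mul _)
  unfold Tn
  exact (dx.mul (dV.pow _)).mul ((((((dh p q).const_mul _).add ((dh r s).const_mul _)).const_mul _).mul (dV.pow 2)).add
    ((((dh p q).const_mul _).add ((dh r s).const_mul _)).const_mul _))

/-- the bound on the shifted line -/
theorem Tn_le {E r0 P R : ℝ} (hE : 1 ≤ E) (hE2 : 459 / 200 ≤ E ^ 2) (hE6 : 12 ≤ E ^ 6) (hE10 : 64 ≤ E ^ 10)
    (hA : 0 ≤ A) (hX : (A + 8 / 5 * ‖B‖) * E ^ 5 ≤ 4 / 5) (hX1 : A + 8 / 5 * ‖B‖ ≤ 1 / 10) (hκ : ‖κ‖ = 1)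
    (hm : ‖m‖ = 1) (hmr : (m ^ 2).re = -(1 / 2)) (nx2 : ‖x2‖ = 1) (ny2 : ‖y2‖ = 1) (nx3 : ‖x3‖ = 7 / 4)
    (ny3 : ‖y3‖ = 7 / 4) (hp : ‖p‖ ≤ P) (hq : ‖q‖ ≤ P) (hR : ‖r‖ ≤ R) (hs : ‖s‖ ≤ R)
    (hr : 0 ≤ r0) (hr2 : r0 ^ 2 = 3 / 2) (hl : 1 ≤ l) (t : ℝ) :
    ‖Tn A B κ m x2 y2 x3 y3 p q r s l (t - (Real.log E : ℂ) * Complex.I)‖ ≤
      (E ^ l)⁻¹ * r0 ^ (l - 1) * ((5 * l - 1) / 4 * ((P + 7 / 4 * R) * (E ^ 2 + (E ^ 2)⁻¹))) := by
  have hE0 : 0 < E := by linarith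
  have hP0 : 0 ≤ P := (norm_nonneg _).trans hp
  have hR0 : 0 ≤ R := (norm_nonneg _).trans hR
  set z : ℂ := t - (Real.log E : ℂ) * Complex.I with hz
  have hzi : z.im = -Real.log E := by rw [hz]; simp
  have hlog : 0 ≤ Real.log E := Real.log_nonneg hE
  have hLN := strip_LN hE0 hE2 hE6 hE10 hA hX hzi
  obtain ⟨z1, z2⟩ := strip_lt hE hE2 hA hX hX1 hm (z := z) (by rw [hzi]) (by rw [hzi]; linarith)
  have hrat : ‖1 + Zs A B m z‖ ≤ 3 / 2 * ‖1 + Zf A B m z‖ := ratio hLN hm hmr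
  have nκ : ‖(starRingEnd ℂ) κ‖ = 1 := by rw [Complex.norm_conj, hκ]
  have hV2 : ‖Vf A B κ m z‖ ^ 2 ≤ 3 / 2 := by
    rw [← norm_pow, Vf_sq hκ z1 z2, norm_mul, norm_pow, nκ, one_pow, one_mul, norm_div,
      div_le_iff₀ (norm_pos_iff.2 (slit_ne (slit_one z1)))]
    exact hrat
  have hVr : ‖Vf A B κ m z‖ ≤ r0 := by
    refine le_of_sq_le_sq ?_ hr
    rw [hr2]
    exact hV2
  have ex : ∀ n : ℤ, ‖xx n z‖ = E ^ n := by
    intro n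
    rw [xx_norm, hzi]
    have : -((n : ℝ) * -Real.log E) = Real.log E * n := by ring
    rw [this, ← Real.rpow_def_of_pos hE0, Real.rpow_intCast]
  have hx : ‖xx (-(l : ℤ)) z‖ = (E ^ l)⁻¹ := by rw [ex, zpow_neg, zpow_natCast]
  have hx2 : ‖xx 2 z‖ = E ^ 2 := by rw [ex]; norm_cast
  have hx2' : ‖xx (-2) z‖ = (E ^ 2)⁻¹ := by rw [ex, zpow_neg]; norm_cast
  have hh : ∀ {a b : ℂ} {M : ℝ}, ‖a‖ ≤ M → ‖b‖ ≤ M → ‖h2C a b z‖ ≤ M * (E ^ 2 + (E ^ 2)⁻¹) := by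
    intro a b M ha hb
    unfold h2C
    refine (norm_add_le _ _).trans ?_
    rw [norm_mul, norm_mul, hx2, hx2', mul_add]
    exact add_le_add (mul_le_mul_of_nonneg_right ha (by positivity)) (mul_le_mul_of_nonneg_right hb (by positivity))
  have h1 := hh hp hq
  have h2 := hh hR hs
  set S := E ^ 2 + (E ^ 2)⁻¹ with hS
  have hL : ∀ {a b : ℂ}, ‖a‖ = 1 → ‖b‖ = 7 / 4 → ‖a * h2C p q z + b * h2C r s z‖ ≤ (P + 7 / 4 * R) * S := by
    intro a b ha hb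
    refine (norm_add_le _ _).trans ?_
    rw [norm_mul, norm_mul, ha, hb]
    linarith
  have hl' : (1 : ℝ) ≤ l := by exact_mod_cast hl
  have n1 : ‖(1 - (l : ℂ)) / 2‖ = ((l : ℝ) - 1) / 2 := by
    have : (1 - (l : ℂ)) / 2 = (((1 - (l : ℝ)) / 2 : ℝ) : ℂ) := by push_cast; ring
    rw [this, Complex.norm_real, Real.norm_eq_abs, abs_of_nonpos (by linarith)]
    ring
  have n2 : ‖(1 + (l : ℂ)) / 2‖ = ((l : ℝ) + 1) / 2 := by
    have : (1 + (l : ℂ)) / 2 = (((1 + (l : ℝ)) / 2 : ℝ) : ℂ) := by push_cast; ring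
    rw [this, Complex.norm_real, Real.norm_eq_abs, abs_of_nonneg (by linarith)]
    ring
  have hQ0 : 0 ≤ (P + 7 / 4 * R) * S := by rw [hS]; positivity
  have hbr : ‖(1 - (l : ℂ)) / 2 * (x2 * h2C p q z + x3 * h2C r s z) * Vf A B κ m z ^ 2
      + (1 + (l : ℂ)) / 2 * (y2 * h2C p q z + y3 * h2C r s z)‖ ≤ (5 * l - 1) / 4 * ((P + 7 / 4 * R) * S) := by
    refine (norm_add_le _ _).trans ?_
    rw [norm_mul, norm_mul, norm_mul, norm_pow, n1, n2]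
    have q1 : ((l : ℝ) - 1) / 2 * ‖x2 * h2C p q z + x3 * h2C r s z‖ * ‖Vf A B κ m z‖ ^ 2 ≤
        ((l : ℝ) - 1) / 2 * ((P + 7 / 4 * R) * S) * (3 / 2) := by
      refine mul_le_mul (mul_le_mul_of_nonneg_left (hL nx2 nx3) (by linarith)) hV2 (by positivity) ?_
      exact mul_nonneg (by linarith) hQ0
    have q2 : ((l : ℝ) + 1) / 2 * ‖y2 * h2C p q z + y3 * h2C r s z‖ ≤ ((l : ℝ) + 1) / 2 * ((P + 7 / 4 * R) * S) :=
      mul_le_mul_of_nonneg_left (hL ny2 ny3) (by linarith)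
    linarith
  unfold Tn
  rw [norm_mul, norm_mul, norm_pow, hx]
  have hE1 : 0 ≤ (E ^ l)⁻¹ := by positivity
  exact mul_le_mul (mul_le_mul_of_nonneg_left (pow_le_pow_left₀ (norm_nonneg _) hVr _) hE1) hbr
    (norm_nonneg _) (by positivity)

/-- the mean over the period -/
theorem Tn_int {E r0 P R : ℝ} (hE : 1 ≤ E) (hE2 : 459 / 200 ≤ E ^ 2) (hE6 : 12 ≤ E ^ 6) (hE10 : 64 ≤ E ^ 10)
    (hA : 0 ≤ A) (hX : (A + 8 / 5 * ‖B‖) * E ^ 5 ≤ 4 / 5) (hX1 : A + 8 / 5 * ‖B‖ ≤ 1 / 10) (hκ : ‖κ‖ = 1)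
    (hm : ‖m‖ = 1) (hmr : (m ^ 2).re = -(1 / 2)) (nx2 : ‖x2‖ = 1) (ny2 : ‖y2‖ = 1) (nx3 : ‖x3‖ = 7 / 4)
    (ny3 : ‖y3‖ = 7 / 4) (hp : ‖p‖ ≤ P) (hq : ‖q‖ ≤ P) (hR : ‖r‖ ≤ R) (hs : ‖s‖ ≤ R)
    (hr : 0 ≤ r0) (hr2 : r0 ^ 2 = 3 / 2) (hl : 1 ≤ l) :
    ‖(1 / (2 * Real.pi) : ℂ) * ∫ t in (0 : ℝ)..(2 * Real.pi), Tn A B κ m x2 y2 x3 y3 p q r s l t‖ ≤
      (E ^ l)⁻¹ * r0 ^ (l - 1) * ((5 * l - 1) / 4 * ((P + 7 / 4 * R) * (E ^ 2 + (E ^ 2)⁻¹))) := by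
  have hpi := Real.pi_pos
  have hlog : 0 ≤ Real.log E := Real.log_nonneg hE
  have hc := contour (F := Tn A B κ m x2 y2 x3 y3 p q r s l) hlog (fun z h1 h2 => by
    obtain ⟨z1, z2⟩ := strip_lt hE hE2 hA hX hX1 hm h1 h2
    exact Tn_diff z1 z2) Tn_per
  rw [hc, norm_mul]
  have hb := intervalIntegral.norm_integral_le_of_norm_le_const (a := 0) (b := 2 * Real.pi)
    (C := (E ^ l)⁻¹ * r0 ^ (l - 1) * ((5 * l - 1) / 4 * ((P + 7 / 4 * R) * (E ^ 2 + (E ^ 2)⁻¹))))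
    (f := fun t : ℝ => Tn A B κ m x2 y2 x3 y3 p q r s l (t - (Real.log E : ℂ) * Complex.I))
    (fun t _ => Tn_le hE hE2 hE6 hE10 hA hX hX1 hκ hm hmr nx2 ny2 nx3 ny3 hp hq hR hs hr hr2 hl t)
  have n1 : ‖(1 / (2 * Real.pi) : ℂ)‖ = 1 / (2 * Real.pi) := by
    have : (1 / (2 * Real.pi) : ℂ) = ((1 / (2 * Real.pi) : ℝ) : ℂ) := by push_cast; rfl
    rw [this, Complex.norm_real, Real.norm_eq_abs, abs_of_pos (by positivity)]
  rw [n1]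
  rw [sub_zero, abs_of_pos (by positivity)] at hb
  refine (mul_le_mul_of_nonneg_left hb (by positivity)).trans (le_of_eq ?_)
  field_simp

/-- the density at real points -/
theorem Tn_real {κ m x2 y2 x3 y3 p r : ℂ} {l : ℕ} (hκ : ‖κ‖ = 1) (hl : 1 ≤ l) (hx2 : (starRingEnd ℂ) x2 = y2)
    (hx3 : (starRingEnd ℂ) x3 = y3) {t : ℝ} (h1 : ‖Zf A B m t‖ < 1) (b2 b3 : ℝ)
    (hb2 : (b2 : ℂ) = h2C p ((starRingEnd ℂ) p) t) (hb3 : (b3 : ℂ) = h2C r ((starRingEnd ℂ) r) t) :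
    ee (-((l : ℝ) * t)) * eF (l : ℝ) (x2 * (b2 : ℂ) + x3 * (b3 : ℂ)) (κ * (1 + Zf A B m t)).arg =
      Tn A B κ m x2 y2 x3 y3 p ((starRingEnd ℂ) p) r ((starRingEnd ℂ) r) l t := by
  have hV := Vf_real hκ h1
  set a := (κ * (1 + Zf A B m t)).arg with ha
  set V := Vf A B κ m t with hVd
  have e1 : ee (-(((l : ℝ) + 1) * a)) = V ^ (l - 1) * V ^ 2 := by
    rw [hV, ← pow_add, ← ee_npow]
    congr 1
    have : ((l - 1 + 2 : ℕ) : ℝ) = (l : ℝ) + 1 := by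
      rw [show l - 1 + 2 = l + 1 by omega]; push_cast; ring
    rw [this]
    ring
  have e2 : ee (-(((l : ℝ) - 1) * a)) = V ^ (l - 1) := by
    rw [hV, ← ee_npow]
    congr 1
    rw [Nat.cast_sub hl]
    push_cast
    ring
  have e3 : ee (-((l : ℝ) * t)) = xx (-(l : ℤ)) t := by
    rw [xx_real]
    congr 1
    push_cast
    ring
  have hc : (((l : ℕ) : ℝ) : ℂ) = (l : ℂ) := by push_cast; rfl
  unfold eF Tn
  rw [e3, e1, e2, map_add, map_mul, map_mul, Complex.conj_ofReal, Complex.conj_ofReal, hx2, hx3, hc, ← hb2, ← hb3]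
  ring

end Pool.Agent.Helper40.C3
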