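import Pool.Agent.Helper40.C3.Lk

/-!
# Project RC, SHARP, zone I, (C3): the rows of the harmonics `± 2` of `β` as mean values of lists, end
-/

set_option autoImplicit false

open MeasureTheory Set Filter Metric

namespace Pool.Agent.Helper40.C3

open Helper49.LT hiding sg s3
open Helper49.RC (om)
open Helper44.GQ
open Helper49.Sharp hiding mean ee_arg
open Helper56.RC (fc)
open Pool.Agent.Helper35.RC
open Pool.Agent.Helper35.Cas
open Pool.Agent.Helper20.RC (wR eM eD lk)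
open Pool.Agent.Helper43.SH hiding conj_ee
open Pool.Agent.Helper61.RC.QC (h2F)
open Pool.Agent.Helper33.SH (PI ZC z0I b0I ζ1 ζ2 om_val om_conj om_mul om_norm om_sq om_cube e1_eq e2_eq Z1_eq
  Z2_eq Z1 Z2 ee_arg norm_ζ1 norm_ζ2 norm_z0I)

/-- the mean value of two lists -/
noncomputable def MM (A : ℝ) (B : ℂ) (l : ℤ) (F1 F2 : List It) : ℂ :=
  mean (fun t => ee ((l : ℝ) * t) * lfV A B Z1 F1 t) + mean (fun t => ee ((l : ℝ) * t) * lfV A B Z2 F2 t)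

/-- the density of one edge -/
noncomputable def dQ (l : ℤ) (β : ℝ → ℂ) (U V : ℝ → ℂ) (t : ℝ) : ℂ :=
  ee ((l : ℝ) * t) * (((h2F β t).re : ℂ) * U t + ((h2F β t).im : ℂ) * (Complex.I * V t))

theorem dQ_mean (l : ℤ) (β : ℝ → ℂ) {U V : ℝ → ℂ} (hU : Continuous U) (hV : Continuous V) :
    mean (dQ l β U V) =
      fc (fun x => ((β x).re : ℂ)) 2 * mean (fun t => ee (((l + 2 : ℤ) : ℝ) * t) * U t)
      + (starRingEnd ℂ) (fc (fun x => ((β x).re : ℂ)) 2) * mean (fun t => ee (((l - 2 : ℤ) : ℝ) * t) * U t)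
      + (Complex.I * fc (fun x => ((β x).im : ℂ)) 2 * mean (fun t => ee (((l + 2 : ℤ) : ℝ) * t) * V t)
      + Complex.I * (starRingEnd ℂ) (fc (fun x => ((β x).im : ℂ)) 2) *
        mean (fun t => ee (((l - 2 : ℤ) : ℝ) * t) * V t)) := by
  set p := fc (fun x => ((β x).re : ℂ)) 2
  set r := fc (fun x => ((β x).im : ℂ)) 2
  have c : ∀ n : ℤ, Continuous fun t : ℝ => ee ((n : ℝ) * t) := fun n => continuous_ee.comp (by fun_prop)
  have e : dQ l β U V = fun t => (p * (ee (((l + 2 : ℤ) : ℝ) * t) * U t)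
      + (starRingEnd ℂ) p * (ee (((l - 2 : ℤ) : ℝ) * t) * U t))
      + ((Complex.I * r) * (ee (((l + 2 : ℤ) : ℝ) * t) * V t)
      + (Complex.I * (starRingEnd ℂ) r) * (ee (((l - 2 : ℤ) : ℝ) * t) * V t)) := by
    funext t
    unfold dQ
    rw [h2_re, h2_im]
    have e1 : ee (((l + 2 : ℤ) : ℝ) * t) = ee ((l : ℝ) * t) * ee (2 * t) := by
      rw [← ee_add]; congr 1; push_cast; ring
    have e2 : ee (((l - 2 : ℤ) : ℝ) * t) = ee ((l : ℝ) * t) * ee (-2 * t) := by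
      rw [← ee_add]; congr 1; push_cast; ring
    rw [e1, e2]
    ring
  have k1 : ∀ (a : ℂ) (n : ℤ), Continuous fun t => a * (ee ((n : ℝ) * t) * U t) := fun a n =>
    continuous_const.mul ((c n).mul hU)
  have k2 : ∀ (a : ℂ) (n : ℤ), Continuous fun t => a * (ee ((n : ℝ) * t) * V t) := fun a n =>
    continuous_const.mul ((c n).mul hV)
  have m4 : ∀ {f1 f2 f3 f4 : ℝ → ℂ}, Continuous f1 → Continuous f2 → Continuous f3 → Continuous f4 →
      mean (fun t => (f1 t + f2 t) + (f3 t + f4 t)) = (mean f1 + mean f2) + (mean f3 + mean f4) := by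
    intro f1 f2 f3 f4 h1 h2 h3 h4
    rw [mean_add (F := fun t => f1 t + f2 t) (G := fun t => f3 t + f4 t) (h1.add h2) (h3.add h4), mean_add h1 h2,
      mean_add h3 h4]
  rw [e, m4 (k1 p (l + 2)) (k1 ((starRingEnd ℂ) p) (l - 2)) (k2 (Complex.I * r) (l + 2))
    (k2 (Complex.I * (starRingEnd ℂ) r) (l - 2)), mean_const_mul, mean_const_mul, mean_const_mul, mean_const_mul]

theorem h2F_per (β : ℝ → ℂ) (t : ℝ) : h2F β (t + 2 * Real.pi) = h2F β t := by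
  have e : ee (2 * (t + 2 * Real.pi)) = ee (2 * t) := by
    have := Pool.Agent.Helper35.Cas.ee_per 2 t
    push_cast at this
    exact this
  unfold h2F
  rw [e]

variable (c : ZC) (A : ℝ) (B : ℂ)

theorem hD1 (h : ‖(A : ℂ)‖ + 3 / 2 * ‖B‖ < 1) (β : ℝ → ℂ) (l : ℤ) (K : ℕ) (g h' : ℚ) (θ : ℝ) :
    (starRingEnd ℂ) (eD (f1R (h2F β) (fun _ => 0)) (PI c A B).ph1 l θ) =
      dQ l β (lfV A B Z1 (FA1 l K g h')) (lfV A B Z1 (FB1 l K g h')) (θ - Real.pi / 3) := by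
  have hz := nz1 A B h (θ - Real.pi / 3)
  have hF : f1R (h2F β) (fun _ => 0) θ = ee (θ - Real.pi / 3) *
      ((starRingEnd ℂ) om * ((h2F β (θ - Real.pi / 3)).re : ℝ)
        + ((Real.sqrt 3 : ℂ) + Complex.I / 4) * ((h2F β (θ - Real.pi / 3)).im : ℝ)) := by
    unfold f1R g1L
    rw [add_zero]
  have h1 := b_pt l om (ζ1 A B (θ - Real.pi / 3)) ((starRingEnd ℂ) om * ((h2F β (θ - Real.pi / 3)).re : ℝ)
        + ((Real.sqrt 3 : ℂ) + Complex.I / 4) * ((h2F β (θ - Real.pi / 3)).im : ℝ)) om_norm hz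
    (θ - Real.pi / 3) (om + z0I A B (θ - Real.pi / 3)).arg (by
      rw [e1_eq, ee_arg (mul_ne_zero om0 (one_add_ne hz)), norm_mul, om_norm, one_mul, mul_div_assoc])
  rw [pt1 A B l K g h'] at h1
  unfold dQ
  rw [← h1]
  unfold eD
  rw [hF]
  rfl

theorem hD2 (h : ‖(A : ℂ)‖ + 3 / 2 * ‖B‖ < 1) (β : ℝ → ℂ) (l : ℤ) (K : ℕ) (g h' : ℚ) (θ : ℝ) :
    (starRingEnd ℂ) (eD (f2R (h2F β) (fun _ => 0)) (PI c A B).ph2 l θ) =
      dQ l β (lfV A B Z2 (FA2 l K g h')) (lfV A B Z2 (FB2 l K g h')) (θ - 2 * Real.pi / 3) := by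
  have hz := nz2 A B h (θ - 2 * Real.pi / 3)
  have ho : ‖om ^ 2‖ = 1 := by rw [norm_pow, om_norm, one_pow]
  have hF : f2R (h2F β) (fun _ => 0) θ = ee (θ - 2 * Real.pi / 3) *
      ((starRingEnd ℂ) om ^ 2 * ((h2F β (θ - 2 * Real.pi / 3)).re : ℝ)
        + ((Real.sqrt 3 : ℂ) - Complex.I / 4) * ((h2F β (θ - 2 * Real.pi / 3)).im : ℝ)) := by
    unfold f2R g2L
    rw [sub_zero]
  have h1 := b_pt l (om ^ 2) (ζ2 A B (θ - 2 * Real.pi / 3))
    ((starRingEnd ℂ) om ^ 2 * ((h2F β (θ - 2 * Real.pi / 3)).re : ℝ)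
        + ((Real.sqrt 3 : ℂ) - Complex.I / 4) * ((h2F β (θ - 2 * Real.pi / 3)).im : ℝ)) ho hz
    (θ - 2 * Real.pi / 3) (om ^ 2 - z0I A B (θ - 2 * Real.pi / 3)).arg (by
      rw [e2_eq, ee_arg (mul_ne_zero (pow_ne_zero 2 om0) (one_add_ne hz)), norm_mul, ho, one_mul, mul_div_assoc])
  rw [pt2 A B l K g h'] at h1
  unfold dQ
  rw [← h1]
  unfold eD
  rw [hF]
  rfl

/-- **the rows of the harmonics `± 2` of `β`** -/
theorem eM_h2 (h : ‖(A : ℂ)‖ + 3 / 2 * ‖B‖ < 1) (β : ℝ → ℂ) (l : ℤ) (K : ℕ) (g h' : ℚ) :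
    (starRingEnd ℂ) (eM (f1R (h2F β) (fun _ => 0)) (f2R (h2F β) (fun _ => 0)) (PI c A B).ph1 (PI c A B).ph2 l) =
      fc (fun x => ((β x).re : ℂ)) 2 * MM A B (l + 2) (FA1 l K g h') (FA2 l K g h')
      + (starRingEnd ℂ) (fc (fun x => ((β x).re : ℂ)) 2) * MM A B (l - 2) (FA1 l K g h') (FA2 l K g h')
      + (Complex.I * fc (fun x => ((β x).im : ℂ)) 2 * MM A B (l + 2) (FB1 l K g h') (FB2 l K g h')
      + Complex.I * (starRingEnd ℂ) (fc (fun x => ((β x).im : ℂ)) 2) *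
        MM A B (l - 2) (FB1 l K g h') (FB2 l K g h')) := by
  have z1 : ∀ t, ‖evP (uu A t) (vv B t) Z1 / 4‖ < 1 := fun t => by rw [zeta1_ev]; exact nz1 A B h t
  have z2 : ∀ t, ‖evP (uu A t) (vv B t) Z2 / 4‖ < 1 := fun t => by rw [zeta2_ev]; exact nz2 A B h t
  have cA1 := cont_lf A B Z1 z1 (FA1 l K g h')
  have cB1 := cont_lf A B Z1 z1 (FB1 l K g h')
  have cA2 := cont_lf A B Z2 z2 (FA2 l K g h')
  have cB2 := cont_lf A B Z2 z2 (FB2 l K g h')
  have ch : Continuous (h2F β) := by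
    unfold h2F
    have ce : Continuous fun t : ℝ => ee (2 * t) := continuous_ee.comp (by fun_prop)
    fun_prop
  have c0 : Continuous fun t : ℝ => ee ((l : ℝ) * t) := continuous_ee.comp (by fun_prop)
  have cQ : ∀ {U V : ℝ → ℂ}, Continuous U → Continuous V → Continuous (dQ l β U V) := by
    intro U V hU hV
    unfold dQ
    exact c0.mul (((Complex.continuous_ofReal.comp (Complex.continuous_re.comp ch)).mul hU).add
      ((Complex.continuous_ofReal.comp (Complex.continuous_im.comp ch)).mul (continuous_const.mul hV)))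
  have pQ : ∀ {U V : ℝ → ℂ}, (∀ t, U (t + 2 * Real.pi) = U t) → (∀ t, V (t + 2 * Real.pi) = V t) →
      ∀ t, dQ l β U V (t + 2 * Real.pi) = dQ l β U V t := by
    intro U V hU hV t
    unfold dQ
    rw [Pool.Agent.Helper35.Cas.ee_per, h2F_per, hU, hV]
  set D1 := dQ l β (lfV A B Z1 (FA1 l K g h')) (lfV A B Z1 (FB1 l K g h')) with hD1d
  set D2 := dQ l β (lfV A B Z2 (FA2 l K g h')) (lfV A B Z2 (FB2 l K g h')) with hD2d
  have e3 : (starRingEnd ℂ) (eM (f1R (h2F β) (fun _ => 0)) (f2R (h2F β) (fun _ => 0)) (PI c A B).ph1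
      (PI c A B).ph2 l) = mean (fun θ => D1 (θ - Real.pi / 3) + D2 (θ - 2 * Real.pi / 3)) := by
    have : eM (f1R (h2F β) (fun _ => 0)) (f2R (h2F β) (fun _ => 0)) (PI c A B).ph1 (PI c A B).ph2 l =
      mean (fun θ => eD (f1R (h2F β) (fun _ => 0)) (PI c A B).ph1 l θ
        + eD (f2R (h2F β) (fun _ => 0)) (PI c A B).ph2 l θ) := rfl
    rw [this, mean_conj]
    congr 1
    funext θ
    rw [map_add, hD1 c A B h β l K g h', hD2 c A B h β l K g h']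
  have k1 : Continuous D1 := cQ cA1 cB1
  have k2 : Continuous D2 := cQ cA2 cB2
  have k1' : Continuous fun θ => D1 (θ - Real.pi / 3) := k1.comp (by fun_prop)
  have k2' : Continuous fun θ => D2 (θ - 2 * Real.pi / 3) := k2.comp (by fun_prop)
  rw [e3, mean_add k1' k2', mean_sub (pQ (lfV_per _ _ _ _) (lfV_per _ _ _ _)),
    mean_sub (pQ (lfV_per _ _ _ _) (lfV_per _ _ _ _)), dQ_mean l β cA1 cB1, dQ_mean l β cA2 cB2]
  unfold MM
  ring

/-- the bound of a row -/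
theorem norm_row (h : ‖(A : ℂ)‖ + 3 / 2 * ‖B‖ < 1) (β : ℝ → ℂ) (l : ℤ) (K : ℕ) (g h' : ℚ) {x1 x2 x3 x4 : ℝ}
    (h1 : ‖MM A B (l + 2) (FA1 l K g h') (FA2 l K g h')‖ ≤ x1)
    (h2 : ‖MM A B (l - 2) (FA1 l K g h') (FA2 l K g h')‖ ≤ x2)
    (h3 : ‖MM A B (l + 2) (FB1 l K g h') (FB2 l K g h')‖ ≤ x3)
    (h4 : ‖MM A B (l - 2) (FB1 l K g h') (FB2 l K g h')‖ ≤ x4) :
    ‖eM (f1R (h2F β) (fun _ => 0)) (f2R (h2F β) (fun _ => 0)) (PI c A B).ph1 (PI c A B).ph2 l‖ ≤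
      (x1 + x2) * ‖fc (fun x => ((β x).re : ℂ)) 2‖ + (x3 + x4) * ‖fc (fun x => ((β x).im : ℂ)) 2‖ := by
  rw [← Complex.norm_conj, eM_h2 c A B h β l K g h']
  set p := fc (fun x => ((β x).re : ℂ)) 2
  set r := fc (fun x => ((β x).im : ℂ)) 2
  have hp := norm_nonneg p
  have hr := norm_nonneg r
  refine (norm_add_le _ _).trans ((add_le_add (norm_add_le _ _) (norm_add_le _ _)).trans ?_)
  rw [norm_mul, norm_mul, norm_mul, norm_mul, norm_mul, norm_mul, Complex.norm_conj, Complex.norm_conj,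
    Complex.norm_I, one_mul]
  have a1 := mul_le_mul_of_nonneg_left h1 hp
  have a2 := mul_le_mul_of_nonneg_left h2 hp
  have a3 := mul_le_mul_of_nonneg_left h3 hr
  have a4 := mul_le_mul_of_nonneg_left h4 hr
  linarith

end Pool.Agent.Helper40.C3
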