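import Pool.Agent.Helper40.C3.Ln

/-!
# Project RC, SHARP, zone I, (C3): the rows `l = 4, .., 18`, data and checks
-/

set_option autoImplicit false

namespace Pool.Agent.Helper40.C3

open Helper49.LT hiding sg
open Helper49.Sharp hiding mean
open Helper56.RC (fc)
open Pool.Agent.Helper35.RC
open Pool.Agent.Helper35.Cas
open Pool.Agent.Helper20.RC (eM lk)
open Pool.Agent.Helper43.SH
open Pool.Agent.Helper61.RC.QC (h2F)
open Pool.Agent.Helper33.SH (PI ZC)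

/-- a row: frequency, exact orders, constants, denominator, the four polynomials -/
structure RD where
  l : ℤ
  K : ℕ
  g : ℚ
  h : ℚ
  D : ℤ
  E1 : Po
  E2 : Po
  E3 : Po
  E4 : Po

/-- all checks of a pair of lists -/
def okP (F1 F2 : List It) (D : ℤ) (l m : ℤ) (E E' : Po) : Bool :=
  F1.all okI && F2.all okI && (chkD D F1 && chkD D F2)
  && eqP (totI zp2 zc2 l 0 D F2 (totI zp1 zc1 l 0 D F1 [])) E
  && eqP (totI zp2 zc2 m 0 D F2 (totI zp1 zc1 m 0 D F1 [])) E'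

def RD.okA (R : RD) : Bool := okP (FA1 R.l R.K R.g R.h) (FA2 R.l R.K R.g R.h) R.D (R.l + 2) (R.l - 2) R.E1 R.E2
def RD.okB (R : RD) : Bool := okP (FB1 R.l R.K R.g R.h) (FB2 R.l R.K R.g R.h) R.D (R.l + 2) (R.l - 2) R.E3 R.E4
def RD.okL (R : RD) : Bool := decide (R.l.natAbs % 2 = 0) && decide (0 < R.D)

/-- errors -/
def RD.ea (R : RD) : ℚ := erL (FA1 R.l R.K R.g R.h) + erL (FA2 R.l R.K R.g R.h)
def RD.eb (R : RD) : ℚ := erL (FB1 R.l R.K R.g R.h) + erL (FB2 R.l R.K R.g R.h)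

/-- bounds on a box -/
def RD.xa (R : RD) (a y : ℚ) : ℚ := (bdP a y R.E1 + bdP a y R.E2) / R.D + 2 * R.ea
def RD.xb (R : RD) (a y : ℚ) : ℚ := (bdP a y R.E3 + bdP a y R.E4) / R.D + 2 * R.eb

theorem pair_ok {A : ℝ} {B : ℂ} (h : ‖(A : ℂ)‖ + 3 / 2 * ‖B‖ ≤ 1 / 12) {F1 F2 : List It} {D l m : ℤ} {E E' : Po}
    (hl : l.natAbs % 2 = 0) (hm : m.natAbs % 2 = 0) (hD0 : 0 < D) (hk : okP F1 F2 D l m E E' = true) {a y : ℚ}
    (hA : ‖(A : ℂ)‖ ≤ (a : ℝ)) (hB : ‖B‖ ≤ (y : ℝ)) :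
    ‖MM A B l F1 F2‖ ≤ ((bdP a y E / D + (erL F1 + erL F2) : ℚ) : ℝ) ∧
    ‖MM A B m F1 F2‖ ≤ ((bdP a y E' / D + (erL F1 + erL F2) : ℚ) : ℝ) := by
  unfold okP at hk
  rw [Bool.and_eq_true, Bool.and_eq_true, Bool.and_eq_true, Bool.and_eq_true] at hk
  obtain ⟨⟨⟨⟨k1, k2⟩, k3⟩, k4⟩, k5⟩ := hk
  have hD' : (0 : ℝ) < (D : ℝ) := by exact_mod_cast hD0
  have key : ∀ {n : ℤ} {X : Po}, n.natAbs % 2 = 0 →
      eqP (totI zp2 zc2 n 0 D F2 (totI zp1 zc1 n 0 D F1 [])) X = true →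
      ‖MM A B n F1 F2‖ ≤ ((bdP a y X / D + (erL F1 + erL F2) : ℚ) : ℝ) := by
    intro n X hn hX
    have h1 := two_fam12 A B h n hn D hD0.ne' F1 F2 X k1 k2 k3 hX
    have h2 := norm_bdP hA hB X
    have h3 : ‖evP A B X / (D : ℂ)‖ ≤ (bdP a y X : ℝ) / D := by
      rw [norm_div, Complex.norm_intCast, abs_of_pos hD']
      exact div_le_div_of_nonneg_right h2 hD'.le
    have h4 : MM A B n F1 F2 = (MM A B n F1 F2 - evP A B X / D) + evP A B X / D := by ring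
    rw [h4]
    push_cast
    refine (norm_add_le _ _).trans ?_
    unfold MM at h1 ⊢
    linarith
  exact ⟨key hl k4, key hm k5⟩

/-- **one row** -/
theorem RD.row (R : RD) (hL : R.okL = true) (hA' : R.okA = true) (hB' : R.okB = true) (c : ZC) {A : ℝ} {B : ℂ}
    (h : ‖(A : ℂ)‖ + 3 / 2 * ‖B‖ ≤ 1 / 12) {a y : ℚ} (hA : ‖(A : ℂ)‖ ≤ (a : ℝ)) (hB : ‖B‖ ≤ (y : ℝ)) (β : ℝ → ℂ) :
    ‖eM (f1R (h2F β) (fun _ => 0)) (f2R (h2F β) (fun _ => 0)) (PI c A B).ph1 (PI c A B).ph2 R.l‖ ≤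
      (R.xa a y : ℝ) * ‖fc (fun x => ((β x).re : ℂ)) 2‖ + (R.xb a y : ℝ) * ‖fc (fun x => ((β x).im : ℂ)) 2‖ := by
  unfold RD.okL at hL
  rw [Bool.and_eq_true, decide_eq_true_eq, decide_eq_true_eq] at hL
  obtain ⟨hl, hD⟩ := hL
  have hl2 : (R.l + 2).natAbs % 2 = 0 := by omega
  have hl3 : (R.l - 2).natAbs % 2 = 0 := by omega
  obtain ⟨a1, a2⟩ := pair_ok h hl2 hl3 hD hA' hA hB
  obtain ⟨b1, b2⟩ := pair_ok h hl2 hl3 hD hB' hA hB
  have := norm_row c A B (h.trans_lt (by norm_num)) β R.l R.K R.g R.h a1 a2 b1 b2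
  refine this.trans (le_of_eq ?_)
  unfold RD.xa RD.xb RD.ea RD.eb
  push_cast
  ring

def R4 : RD := ⟨4, 6, 9, 64, 268435456,
  [((2, 0, 0, 0), (1258291200, 0)), ((2, 0, 1, 1), (6558842880, 0)), ((3, 1, 0, 0), (-188743680, 0))],
  [((0, 1, 1, 0), (6039797760, 0)), ((0, 1, 2, 1), (14722007040, 0)), ((1, 2, 1, 0), (-7549747200, 0))],
  [((2, 0, 0, 0), (440401920, 0)), ((2, 0, 1, 1), (-9142272000, 0)), ((3, 1, 0, 0), (361758720, 0))],
  [((0, 1, 1, 0), (880803840, 0)), ((0, 1, 2, 1), (-40143421440, 0)), ((1, 2, 1, 0), (-15335424000, 0))]⟩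
def R6 : RD := ⟨6, 6, 64, 314, 268435456,
  [((1, 0, 1, 0), (-14092861440, 0)), ((1, 0, 2, 1), (-34351349760, 0)), ((2, 1, 1, 0), (17616076800, 0))],
  [((0, 2, 2, 0), (52572979200, 0)), ((3, 0, 0, 1), (10789847040, 0))],
  [((1, 0, 1, 0), (-2055208960, 0)), ((1, 0, 2, 1), (93667983360, 0)), ((2, 1, 1, 0), (35782656000, 0))],
  [((0, 2, 2, 0), (35328491520, 0)), ((3, 0, 0, 1), (-15909519360, 0))]⟩
def R8 : RD := ⟨8, 6, 314, 1145, 268435456,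
  [((0, 0, 2, 0), (18232639488, 0)), ((0, 0, 3, 1), (-16597647360, 0)), ((1, 1, 2, 0), (-189262725120, 0))],
  [((2, 0, 0, 0), (2113929216, 0)), ((2, 0, 1, 1), (-214431694848, 0)), ((3, 1, 0, 0), (-18496880640, 0))],
  [((0, 0, 2, 0), (-7332691968, 0)), ((0, 0, 3, 1), (-119143858176, 0)), ((1, 1, 2, 0), (-127182569472, 0))],
  [((2, 0, 0, 0), (-34879832064, 0)), ((2, 0, 1, 1), (247924260864, 0)), ((3, 1, 0, 0), (101732843520, 0))]⟩
def R10 : RD := ⟨10, 6, 1145, 3384, 268435456,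
  [((0, 1, 3, 0), (274522963968, 0)), ((4, 0, 0, 0), (7266631680, 0))],
  [((1, 0, 1, 0), (24914165760, 0)), ((1, 0, 2, 1), (569444401152, 0)), ((2, 1, 1, 0), (128930807808, 0))],
  [((0, 1, 3, 0), (-2400583680, 0)), ((4, 0, 0, 0), (-39966474240, 0))],
  [((1, 0, 1, 0), (112528982016, 0)), ((1, 0, 2, 1), (-994347712512, 0)), ((2, 1, 1, 0), (-1077693382656, 0))]⟩
def R12 : RD := ⟨12, 6, 3384, 8586, 268435456,
  [((3, 0, 1, 0), (-62077796352, 0))],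
  [((0, 0, 2, 0), (-44983910400, 0)), ((0, 0, 3, 1), (-221208379392, 0)), ((1, 1, 2, 0), (304541073408, 0))],
  [((3, 0, 1, 0), (518889406464, 0))],
  [((0, 0, 2, 0), (-62527635456, 0)), ((0, 0, 3, 1), (912807886848, 0)), ((1, 1, 2, 0), (2563070754816, 0))]⟩
def R14 : RD := ⟨14, 6, 8586, 19392, 268435456,
  [((2, 0, 2, 0), (-207641640960, 0))],
  [((0, 1, 3, 0), (-750822359040, 0)), ((4, 0, 0, 0), (-222670356480, 0))],
  [((2, 0, 2, 0), (-1747548241920, 0))],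
  [((0, 1, 3, 0), (-1390974074880, 0)), ((4, 0, 0, 0), (261468979200, 0))]⟩
def R16 : RD := ⟨16, 8, 101021, 253188, 68719476736,
  [((1, 0, 3, 0), (251352223580160, 0)), ((1, 0, 4, 1), (4713431747788800, 0)), ((2, 1, 3, 0), (1820968825651200, 0)),
  ((6, 0, 0, 0), (-59954555781120, 0))],
  [((0, 2, 4, 0), (-1508364150374400, 0)), ((3, 0, 1, 0), (425354770513920, 0)), ((3, 0, 2, 1), (-9300464369664000, 0)),
  ((4, 1, 1, 0), (-4949309757849600, 0))],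
  [((1, 0, 3, 0), (465655321067520, 0)), ((1, 0, 4, 1), (-8895358540185600, 0)), ((2, 1, 3, 0), (-17241480364032000,
  0)), ((6, 0, 0, 0), (79225662996480, 0))],
  [((0, 2, 4, 0), (-7188207619276800, 0)), ((3, 0, 1, 0), (-618900089733120, 0)), ((3, 0, 2, 1), (-1088622900019200,
  0)), ((4, 1, 1, 0), (5213905118822400, 0))]⟩
def R18 : RD := ⟨18, 8, 253188, 581451, 68719476736,
  [((0, 0, 4, 0), (-179462373113856, 0)), ((0, 0, 5, 1), (-891348549894144, 0)), ((1, 1, 4, 0), (3821189180948480, 0)),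
  ((5, 0, 1, 0), (1253825138655232, 0))],
  [((2, 0, 2, 0), (-852393436643328, 0)), ((2, 0, 3, 1), (27489141008629760, 0)), ((3, 1, 2, 0), (25066856880537600,
  0))],
  [((0, 0, 4, 0), (-103472519184384, 0)), ((0, 0, 5, 1), (4478233903104000, 0)), ((1, 1, 4, 0), (18210125968834560, 0)),
  ((5, 0, 1, 0), (-1320855963435008, 0))],
  [((2, 0, 2, 0), (1978296698929152, 0)), ((2, 0, 3, 1), (-8043847997194240, 0)), ((3, 1, 2, 0), (-31131359594414080,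
  0))]⟩

end Pool.Agent.Helper40.C3
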