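import Pool.Agent.Helper40.C3.Rw

/-!
# Project RC, SHARP, zone I, (C3): the rows `l = 4, .., 18`, kernel checks
-/

set_option autoImplicit false

namespace Pool.Agent.Helper40.C3

theorem l4 : R4.okL = true := by decide +kernel
theorem a4 : R4.okA = true := by decide +kernel
theorem b4 : R4.okB = true := by decide +kernel
theorem l6 : R6.okL = true := by decide +kernel
theorem a6 : R6.okA = true := by decide +kernel
theorem b6 : R6.okB = true := by decide +kernel
theorem l8 : R8.okL = true := by decide +kernel
theorem a8 : R8.okA = true := by decide +kernel
theorem b8 : R8.okB = true := by decide +kernel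
theorem l10 : R10.okL = true := by decide +kernel
theorem a10 : R10.okA = true := by decide +kernel
theorem b10 : R10.okB = true := by decide +kernel

end Pool.Agent.Helper40.C3
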